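import Pool.Agent.Lib.MP_05cdf2_gt.N6.NNum
import Pool.Agent.Lib.MP_05cdf2_gt.Q.QC

/-! MP_05cdf2_gt: reduction of the final theorem (closed surfaces) to the data of one transvection. -/

set_option autoImplicit false

namespace TorZ
open TorM TorG Tor TorQ

/-- the final theorem, from `HasUData` -/
theorem closed_of_UData (hU : ∀ (g : ℕ) [NeZero g], 3 ≤ g → HasUData g (g - 2)) (g : ℕ)
    (hg : 2 ≤ g) (k : ℕ) (hk : k + 1 < g) :
    Module.Finite ℤ (groupHomology (Rep.trivial ℤ (T g) ℤ) k) := by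
  refine closed_main hg k ?_
  intro j hj
  rcases Nat.lt_or_ge g 3 with h | h
  · have h0 : j = 0 := by omega
    subst h0
    exact HIF_zero _
  · haveI : NeZero g := ⟨by omega⟩
    exact (main_of_UData g h (g - 2) (hU g h)).1 j (by omega)

/-- the final theorem, from the arc systems -/
theorem closed_of_HN (hN : ∀ (g : ℕ) [NeZero g], 3 ≤ g → (TorL.slb (TorN.nums g)).HN) (g : ℕ)
    (hg : 2 ≤ g) (k : ℕ) (hk : k + 1 < g) :
    Module.Finite ℤ (groupHomology (Rep.trivial ℤ (T g) ℤ) k) :=
  closed_of_UData (fun g _ h => TorN.hasUData_of_HN (hN g h) (by omega)) g hg k hk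

end TorZ
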