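import Pool.Agent.Lib.MP_05cdf2_gt.Z.Main
import Pool.Agent.Lib.MP_05cdf2_gt.S.Main

/-! MP_05cdf2_gt: the finiteness theorem. -/

set_option autoImplicit false

namespace TorZ

/-- **the homology of the Torelli group is finitely generated in degrees `k < g - 1`** -/
theorem closed (g : ℕ) (hg : 2 ≤ g) (k : ℕ) (hk : k + 2 ≤ g) :
    Module.Finite ℤ (groupHomology (Rep.trivial ℤ (TorQ.T g) ℤ) k) :=
  closed_of_S1 (fun g _ => TorS.s1 g) g hg k hk

end TorZ
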