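import Pool.Agent.Lib.MP_05cdf2_gt.Z.Fin
import Pool.Agent.Lib.MP_05cdf2_gt.L8.Inst

/-! MP_05cdf2_gt: the finiteness theorem from the single arc lemma. -/

set_option autoImplicit false

namespace TorZ

/-- the finiteness theorem from the single arc lemma -/
theorem closed_of_S1 (hS1 : ∀ (g : ℕ) [NeZero g], TorN.S1 g) (g : ℕ) (hg : 2 ≤ g) (k : ℕ) (hk : k + 2 ≤ g) :
    Module.Finite ℤ (groupHomology (Rep.trivial ℤ (TorQ.T g) ℤ) k) :=
  closed_of_HN (fun g _ _ => TorP.hn_of_S1 (hS1 g)) g hg k hk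

end TorZ
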